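import Pool.Agent.H56.BD.StmtsT

/-!
# Module F1s: soundness for sources inside the hub
-/

set_option autoImplicit false

namespace Pool.BD

open Relation

namespace F1s

variable {V : Type} {G : SimpleGraph V} {rk : V → ℕ} {H : Set V} {q : V} {Q : Set V} {L R : Ct V}
  {b : V}

theorem exit_dart {c : Ct V} {D : Set V} {x a : V} (h : Anc H q c x a) (ha : a ∉ D) :
    x ∈ D → ∃ z y, z ∈ D ∧ y ∉ D ∧ y ∈ H ∧ y ≠ q ∧ c.par y = z ∧ Anc H q c y a := by
  induction h using ReflTransGen.head_induction_on with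
  | refl => exact fun hx => absurd hx ha
  | @head x x1 h1 h2 ih =>
    intro hx
    by_cases h3 : x1 ∈ D
    · exact ih h3
    · exact ⟨x, x1, hx, h3, h1.1, h1.2.1, h1.2.2, h2⟩

theorem cn_out {u v : V} (hu : ¬ Re G rk u b) (h : Re G rk u v) :
    Cn G {y | y ∉ Ds G rk H b} u v := by
  refine ⟨fun h1 => hu h1.2, ?_⟩
  have key : ∀ y, Re G rk u y → ReflTransGen (fun a c => G.Adj a c ∧ c ∈ {y | y ∉ Ds G rk H b}) u y := by
    intro y hy
    induction hy with
    | refl => exact ReflTransGen.refl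
    | @tail y z h1 h2 ih =>
      refine ReflTransGen.tail ih ⟨h2.1, fun h3 => hu ?_⟩
      exact (ReflTransGen.tail h1 h2).trans h3.2
  exact key v h

/-- K2 for the mirror image -/
theorem k2m [Finite V] (hK1 : K1) (hK2 : K2) (h : NH G rk H q Q L R) (hb : Sp G rk H q L b) {u w : V}
    (hu : u ∈ Ds G rk H b) (hub : u ≠ b) (hw : w ∉ Ds G rk H b) (ha : G.Adj u w)
    (hq : u = q → w ∈ Q) :
    ((R.pos u w < R.lo b ∧ ∀ x ∈ Ds G rk H b, ∀ y ∈ Ds G rk H b, Ar G rk x y → R.par y ≠ x →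
      ¬ (R.pos x y < R.pos u w ∧ R.pos u w < R.pos y x)) ↔
      (Anc H q L u b ∧ L.pos u w < L.lo b)) := by
  have h1 := hK1 V G rk H q Q L R b h hb
  have h2 : NH G rk H q Q R.mir L.mir := ⟨h.ok.mir, h.up, h.inj⟩
  have h3 := hK2 V G rk H q Q R.mir L.mir b h2 h1 u hu hub w hw ha hq
  have e1 : R.mir.hi b = - R.lo b := rfl
  have e2 : ∀ u w, R.mir.pos u w = - R.pos u w := fun _ _ => rfl
  have e3 : L.mir.hi b = - L.lo b := rfl
  have e4 : L.mir.pos u w = - L.pos u w := rfl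
  rw [e1, e2, e3, e4] at h3
  constructor
  · rintro ⟨h4, h5⟩
    have h6 := h3.1 ⟨by omega, fun hc => by
      obtain ⟨x, hx, y, hy, ha', hp, h7, h8⟩ := hc
      rw [e2] at h7 h8
      exact h5 x hx y hy ha' hp ⟨by omega, by omega⟩⟩
    exact ⟨h6.1, by omega⟩
  · rintro ⟨h4, h5⟩
    have h6 := h3.2 ⟨h4, by omega⟩
    refine ⟨by omega, fun x hx y hy ha' hp hc => h6.2 ⟨x, hx, y, hy, ha', hp, ?_, ?_⟩⟩
    · rw [e2]; omega
    · rw [e2]; omega

end F1s

theorem f1s (hRCL : RCL) (_hK0 : K0) (hK1 : K1) (hK2 : K2) : F1s := by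
  intro V _ G rk H q Q L R b h hsp a haH haq hhi hlo hv
  by_contra hnab
  obtain ⟨v, hvH, hvq, hav, hvlo⟩ := hv
  have hbH : b ∈ H := hsp.1
  have hL := h.ok.isL
  have hR := h.ok.isR
  have hlb := hL.lh b hbH
  have hlbR := hR.lh b hbH
  have hD : ∀ u, Re G rk a u → u ∉ Ds G rk H b := fun u hu hh => hnab (hu.trans hh.2)
  have hvD := hD v hav
  -- position of v in L
  have hv1 : L.hi v < L.lo b := by
    rcases hL.tri h.ok.parL v hvH b hbH with h1 | h1 | h1 | h1
    · exact absurd (hav.trans (Anc.reach hL h.ok.parL h1)) hnab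
    · by_cases he : b = v
      · exact absurd (he ▸ hav) hnab
      · have := hL.anc_block h1 he; omega
    · exact h1
    · have := hL.lh v hvH; omega
  have ha1 : L.hi b < L.lo a := by
    rcases hL.tri h.ok.parL a haH b hbH with h1 | h1 | h1 | h1
    · exact absurd (Anc.reach hL h.ok.parL h1) hnab
    · have := hL.anc_le h1; omega
    · omega
    · exact h1
  have hnRba : ¬ Anc H q R b a := fun h1 => by have := hR.anc_le h1; omega
  have ha2 : R.hi a < R.lo b := by
    rcases hR.tri h.ok.parR a haH b hbH with h1 | h1 | h1 | h1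
    · exact absurd (Anc.reach hR h.ok.parR h1) hnab
    · exact absurd h1 hnRba
    · exact h1
    · omega
  have hla := hL.lh a haH
  have hlaR := hR.lh a haH
  have hqD : q ∈ Ds G rk H b :=
    ⟨hL.qH, Anc.reach hL h.ok.parL (hL.root_anc h.ok.parL b hbH)⟩
  have hDmem : ∀ {c : V}, c ∈ H → c ∉ Ds G rk H b → ¬ Re G rk c b := fun hc hn hr => hn ⟨hc, hr⟩
  have hparR : ∀ u ∈ Ds G rk H b, u ≠ q → R.par u ∈ Ds G rk H b := by
    intro u hu huq
    have h1 := hR.par u hu.1 huq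
    exact ⟨h1.1, ReflTransGen.head ⟨h1.2, h.ok.parR u hu.1 huq⟩ hu.2⟩
  -- exit dart in R
  obtain ⟨z, c, hz, hcD, hcH, hcq, hcp, hca⟩ :=
    F1s.exit_dart (hR.root_anc h.ok.parR a haH) (hD a ReflTransGen.refl) hqD
  have hzc := hR.par c hcH hcq
  rw [hcp] at hzc
  have hrzc := h.ok.parR c hcH hcq
  rw [hcp] at hrzc
  have harzc : Ar G rk z c := ⟨hzc.2, hrzc⟩
  have hzb : z ≠ b := by
    intro he
    apply hnRba
    rw [← he]
    exact ReflTransGen.head ⟨hcH, hcq, hcp⟩ hca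
  have hcb : R.hi c < R.lo b := by
    have h0 := hR.anc_le hca
    rcases hR.tri h.ok.parR c hcH b hbH with h1 | h1 | h1 | h1
    · exact absurd ⟨hcH, Anc.reach hR h.ok.parR h1⟩ hcD
    · exact absurd (h1.trans hca) hnRba
    · exact h1
    · omega
  have hposzc : R.pos z c < R.lo b := by
    have := (hR.ch c hcH hcq).2.2.1
    rw [hcp] at this
    omega
  -- exit dart in L
  obtain ⟨z', c', hz', hcD', hcH', hcq', hcp', hcv'⟩ :=
    F1s.exit_dart (hL.root_anc h.ok.parL v hvH) hvD hqD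
  have hzc' := hL.par c' hcH' hcq'
  rw [hcp'] at hzc'
  have hz'v : Anc H q L z' v := ReflTransGen.head ⟨hcH', hcq', hcp'⟩ hcv'
  have hnbv : ¬ Anc H q L b v := fun h1 => by
    by_cases he : b = v
    · exact hnab (he ▸ hav)
    · have := hL.anc_block h1 he; omega
  have hzb' : z' ≠ b := fun he => hnbv (he ▸ hz'v)
  have hAz' : Anc H q L z' b := by
    rcases (hRCL V G rk H q Q L R h z' hz'.1 b hbH hz'.2).1 with h1 | h1
    · exact h1
    · have := hL.anc_le hz'v; omega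
  have hcb' : L.hi c' < L.lo b := by
    have h0 := hL.anc_le hcv'
    rcases hL.tri h.ok.parL c' hcH' b hbH with h1 | h1 | h1 | h1
    · exact absurd ⟨hcH', Anc.reach hL h.ok.parL h1⟩ hcD'
    · exact absurd (h1.trans hcv') hnbv
    · exact h1
    · omega
  have hposzc' : L.pos z' c' < L.lo b := by
    have := (hL.ch c' hcH' hcq').2.2.1
    rw [hcp'] at this
    omega
  have hQ : ∀ {u w : V}, w ∈ H → G.Adj u w → u = q → w ∈ Q := fun hw ha he =>
    hL.QH _ hw (he ▸ ha)
  -- (z',c') is uncovered in R, on the left of b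
  have k1 := (F1s.k2m hK1 hK2 h hsp hz' hzb' hcD' hzc'.2 (hQ hcH' hzc'.2)).2 ⟨hAz', hposzc'⟩
  -- feet
  have hdnzc : Dn G H q Q R z c := by
    have := hR.ch_dn h.ok.parR hcH hcq
    rw [hcp] at this
    exact this
  have hdnzc' : Dn G H q Q R z' c' :=
    ⟨hz'.1, hzc'.2, hQ hcH' hzc'.2, fun hne he => hcD' (he ▸ hparR z' hz' hne)⟩
  have hft : Ft G H (Ds G rk H b) q Q R (z, c) := ⟨hz, hdnzc, fun hh => hcD hh.2⟩
  have hft' : Ft G H (Ds G rk H b) q Q R (z', c') := ⟨hz', hdnzc', fun hh => hcD' hh.2⟩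
  have hcn : Cn G {y | y ∉ Ds G rk H b} c c' := by
    have h1 : Cn G {y | y ∉ Ds G rk H b} c a :=
      F1s.cn_out (hDmem hcH hcD) (Anc.reach hR h.ok.parR hca)
    have h2 : Cn G {y | y ∉ Ds G rk H b} a v := F1s.cn_out hnab hav
    have h3 : Cn G {y | y ∉ Ds G rk H b} c' v :=
      F1s.cn_out (hDmem hcH' hcD') (Anc.reach hL h.ok.parL hcv')
    exact (h1.trans' h2).trans' h3.symm'
  have hdisj : Disjoint {y | y ∉ Ds G rk H b} (Ds G rk H b) := by
    rw [Set.disjoint_left]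
    exact fun y hy hy' => hy hy'
  have hlk : Lk G (Ds G rk H b) {y | y ∉ Ds G rk H b} (z, c) (z', c') :=
    Or.inr ⟨hdisj, hcn⟩
  have hlk' : Lk G (Ds G rk H b) {y | y ∉ Ds G rk H b} (z', c') (z, c) :=
    Or.inr ⟨hdisj, hcn.symm'⟩
  have hsub : Ds G rk H b ⊆ H := fun u hu => hu.1
  -- (z,c) is not covered in R
  have k2 : ∀ x ∈ Ds G rk H b, ∀ y ∈ Ds G rk H b, Ar G rk x y → R.par y ≠ x →
      ¬ (R.pos x y < R.pos z c ∧ R.pos z c < R.pos y x) := by
    rintro x hx y hy hxy hp ⟨h1, h2⟩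
    have hqx : rk q ≤ rk x := Anc.rank h.ok.parR (hR.root_anc h.ok.parR x hx.1)
    have hyq : y ≠ q := fun he => by have := hxy.2; rw [he] at this; omega
    have hdxy : Dn G H q Q R x y := by
      refine ⟨hx.1, hxy.1, hQ hy.1 hxy.1, fun hne he => ?_⟩
      have := h.ok.parR x hx.1 hne
      rw [← he] at this
      have := hxy.2
      omega
    have hdyx : Dn G H q Q R y x :=
      ⟨hy.1, hxy.1.symm, fun he => absurd he hyq, fun _ he => hp he.symm⟩
    have hnxy : ¬ Ch H q R x y := fun hc => hp hc.2.2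
    have hnyx : ¬ Ch H q R y x := fun hc => by
      have := h.ok.parR x hx.1 hc.2.1
      rw [hc.2.2] at this
      have := hxy.2
      omega
    have hfxy : Ft G H (Ds G rk H b) q Q R (x, y) := ⟨hx, hdxy, fun hh => hnxy hh.1⟩
    have hfyx : Ft G H (Ds G rk H b) q Q R (y, x) := ⟨hy, hdyx, fun hh => hnyx hh.1⟩
    have hlc : Lk G (Ds G rk H b) ∅ (x, y) (y, x) := Or.inl ⟨rfl, hy, rfl⟩
    -- positions differ
    have hneq : ∀ u w, u ∈ Ds G rk H b → w ∈ Ds G rk H b → Dn G H q Q R u w → ¬ Ch H q R u w →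
        R.pos z' c' ≠ R.pos u w := by
      intro u w hu hw hd hn he
      by_cases hc : Ch H q R z' c'
      · have h3 := hR.ch c' hcH' hcq'
        rw [hc.2.2] at h3
        have h4 := hR.dart_block h.ok.parR hd hn hcH' (by omega) (by omega)
        exact hcD' ⟨hcH', (Anc.reach hR h.ok.parR h4).trans hu.2⟩
      · have h3 := hR.pos_inj h.ok.parR hdnzc' hc hd hn he
        exact hcD' (h3.2 ▸ hw)
    have h3 := hneq x y hx hy hdxy hnxy
    have h4 := hneq y x hy hx hdyx hnyx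
    have h5 := k1.2 x hx y hy hxy hp
    by_cases h6 : R.pos z' c' < R.pos x y
    · exact hR.nc (Ds G rk H b) hsub hqD hparR {y | y ∉ Ds G rk H b} ∅ (by simp)
        (z', c') (z, c) (x, y) (y, x) hft' hft hfxy hfyx hlk' hlc ⟨h6, h1, h2⟩
    · have h7 : R.pos y x < R.pos z' c' := by
        by_contra h8
        exact h5 ⟨by omega, by omega⟩
      exact hR.nc (Ds G rk H b) hsub hqD hparR ∅ {y | y ∉ Ds G rk H b} (by simp)
        (x, y) (y, x) (z, c) (z', c') hfxy hfyx hft hft' hlc hlk ⟨h1, h2, h7⟩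
  have k3 := (F1s.k2m hK1 hK2 h hsp hz hzb hcD hzc.2 (hQ hcH hzc.2)).1 ⟨hposzc, k2⟩
  -- c is left of b in L
  have hrea : Re G rk c a := Anc.reach hR h.ok.parR hca
  have hcL : L.hi c < L.lo b := by
    rcases hL.tri h.ok.parL c hcH b hbH with h1 | h1 | h1 | h1
    · exact absurd ⟨hcH, Anc.reach hL h.ok.parL h1⟩ hcD
    · have h2 : Re G rk b a := (Anc.reach hL h.ok.parL h1).trans hrea
      rcases (hRCL V G rk H q Q L R h b hbH a haH h2).1 with h3 | h3
      · have := hL.anc_le h3; omega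
      · omega
    · exact h1
    · exfalso
      by_cases hp : L.par c = z
      · have := (hL.ch c hcH hcq).2.1
        rw [hp] at this
        omega
      · have h2 := h.ok.left z hz.1 c hcH harzc hp
        have h3 : Dn G H q Q L c z :=
          ⟨hcH, harzc.1.symm, fun he => absurd he hcq, fun _ he => hp he.symm⟩
        have h4 := hL.dn c z h3
        omega
  have hlc := hL.lh c hcH
  rcases (hRCL V G rk H q Q L R h c hcH a haH hrea).1 with h1 | h1
  · have := hL.anc_le h1; omega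
  · omega

end Pool.BD
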