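import Pool.Agent.H56.BD.StmtsT

/-!
# Module K2: uncovered darts on the right = darts on the right side of the `R`-path
-/

set_option autoImplicit false

namespace Pool.BD

open Relation

namespace K2

variable {V : Type} {G : SimpleGraph V} {rk : V → ℕ} {H : Set V} {q : V} {Q : Set V} {L R : Ct V}
  {b : V}

theorem rkq (h : NH G rk H q Q L R) {x : V} (hx : x ∈ H) : rk q ≤ rk x :=
  Anc.rank h.ok.parL (h.ok.isL.root_anc h.ok.parL x hx)

theorem ed_ge (h : NH G rk H q Q L R) {x w : V} : L.pos x w ≤ Ed H q L x w := by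
  unfold Ed
  split_ifs with hc
  · have := (h.ok.isL.ch w hc.1 hc.2.1).2.2.1
    rw [hc.2.2] at this
    exact this
  · exact le_rfl

theorem ed_lt (h : NH G rk H q Q L R) {x w z : V} (hw : Dn G H q Q L x w)
    (hz : Dn G H q Q L x z) (hc : Ch H q L x z) (hlt : L.pos x w < L.pos x z) :
    Ed H q L x w < L.lo z := by
  have h1 := h.ok.isL.sep x w z hw hz hlt
  unfold Ed
  split_ifs with hcw
  · exact h1.2.2 hcw hc
  · exact h1.2.1 hc

theorem ed_lt' (h : NH G rk H q Q L R) {x w z : V} (hw : Dn G H q Q L x w)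
    (hz : Dn G H q Q L x z) (hlt : L.pos x w < L.pos x z) :
    Ed H q L x w < L.pos x z := by
  have h1 := h.ok.isL.sep x w z hw hz hlt
  unfold Ed
  split_ifs with hcw
  · exact h1.1 hcw
  · exact hlt

theorem parD (h : NH G rk H q Q L R) {u : V} (hu : u ∈ Ds G rk H b) (hq : u ≠ q) :
    L.par u ∈ Ds G rk H b := by
  have h1 := h.ok.isL.par u hu.1 hq
  exact ⟨h1.1, ReflTransGen.head ⟨h1.2, h.ok.parL u hu.1 hq⟩ hu.2⟩

theorem parDR (h : NH G rk H q Q L R) {u : V} (hu : u ∈ Ds G rk H b) (hq : u ≠ q) :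
    R.par u ∈ Ds G rk H b := by
  have h1 := h.ok.isR.par u hu.1 hq
  exact ⟨h1.1, ReflTransGen.head ⟨h1.2, h.ok.parR u hu.1 hq⟩ hu.2⟩

/-- child of `x` towards a descendant in `D` -/
theorem child (h : NH G rk H q Q L R) {x u : V} (ha : Anc H q L x u) (hne : x ≠ u)
    (hu : u ∈ Ds G rk H b) : ∃ c, c ∈ Ds G rk H b ∧ Dn G H q Q L x c ∧ Ch H q L x c ∧
      Anc H q L c u ∧ L.lo c ≤ L.lo u ∧ L.hi u ≤ L.hi c ∧ rk x < rk c := by
  obtain ⟨c, hc1, hc2, hc3, hc4⟩ := ha.head hne
  have hdc := h.ok.isL.ch_dn h.ok.parL hc1 hc2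
  rw [hc3] at hdc
  have hblk := h.ok.isL.anc_le hc4
  have hrc := h.ok.parL c hc1 hc2
  rw [hc3] at hrc
  exact ⟨c, ⟨hc1, (Anc.reach h.ok.isL h.ok.parL hc4).trans hu.2⟩, hdc, ⟨hc1, hc2, hc3⟩, hc4,
    hblk.1, hblk.2, hrc⟩

/-- lemma A -/
theorem posA (h : NH G rk H q Q L R) {u w x : V} (hu : u ∈ Ds G rk H b) (hw : w ∉ Ds G rk H b)
    (hd : Dn G H q Q L u w) (hx : x ∈ Ds G rk H b) (h1 : L.lo x ≤ L.pos u w)
    (h2 : L.pos u w ≤ L.hi x) : Anc H q L x u := by
  have hdn := h.ok.isL.dn u w hd
  rcases h.ok.isL.tri h.ok.parL x hx.1 u hu.1 with h3 | h3 | h3 | h3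
  · exact h3
  · by_cases he : u = x
    · subst he; exact ReflTransGen.refl
    · exfalso
      obtain ⟨c, hcD, hdc, hch, _, hc5, hc6, _⟩ := child h h3 he hx
      have hcw : c ≠ w := fun hh => hw (hh ▸ hcD)
      rcases lt_trichotomy (L.pos u c) (L.pos u w) with h5 | h5 | h5
      · have := (h.ok.isL.sep _ _ _ hdc hd h5).1 hch
        omega
      · exact hcw (h.ok.isL.inj _ _ _ hdc hd h5)
      · have := (h.ok.isL.sep _ _ _ hd hdc h5).2.1 hch
        omega
  · omega
  · omega

/-- lemma B -/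
theorem posB (h : NH G rk H q Q L R) {u w s t : V} (hu : u ∈ Ds G rk H b) (hw : w ∉ Ds G rk H b)
    (hd : Dn G H q Q L u w) (hs : s ∈ Ds G rk H b) (ht : t ∈ Ds G rk H b)
    (hd' : Dn G H q Q L s t) (hn : ¬ Ch H q L s t) : L.pos u w ≠ L.pos s t := by
  intro he
  have h1 := h.ok.isL.dn s t hd'
  have h1' := h.ok.isL.dn u w hd
  have h2 := posA h hu hw hd hs (by omega) (by omega)
  by_cases h3 : s = u
  · subst h3
    have := h.ok.isL.inj _ _ _ hd hd' he
    exact hw (this ▸ ht)
  · obtain ⟨c, hcD, hdc, hch, _, hc5, hc6, _⟩ := child h h2 h3 hu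
    rcases lt_trichotomy (L.pos s c) (L.pos s t) with h5 | h5 | h5
    · have := (h.ok.isL.sep _ _ _ hdc hd' h5).1 hch
      omega
    · exact hn (h.ok.isL.inj _ _ _ hdc hd' h5 ▸ hch)
    · have := (h.ok.isL.sep _ _ _ hd' hdc h5).2.1 hch
      omega

/-- a child of `x` in `D` whose block ends after `e` begins after `e` -/
theorem after (h : NH G rk H q Q L R) {x w : V} {e : ℤ}
    (hinv : Inv G rk H q Q L (Ds G rk H b) b x w e) {c : V} (hdc : Dn G H q Q L x c)
    (hch : Ch H q L x c) (hlt : e < L.hi c) : e < L.lo c ∧ e < L.pos x c := by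
  have hc := h.ok.isL.ch c hch.1 hch.2.1
  rw [hch.2.2] at hc
  rcases hinv.2.2 with ⟨h1, _, h3⟩ | ⟨_, _, _, hdw, he, _⟩
  · rw [← h1] at h3
    rw [h3]
    omega
  · rcases lt_trichotomy (L.pos x w) (L.pos x c) with h5 | h5 | h5
    · have := ed_lt h hdw hdc hch h5
      omega
    · have h6 := h.ok.isL.inj _ _ _ hdw hdc h5
      subst h6
      have : Ed H q L x w = L.hi w := by unfold Ed; rw [if_pos hch]
      omega
    · have h6 := (h.ok.isL.sep _ _ _ hdc hdw h5).1 hch
      have := ed_ge h (x := x) (w := w)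
      omega

theorem lo_le (h : NH G rk H q Q L R) {x w : V} {e : ℤ}
    (hinv : Inv G rk H q Q L (Ds G rk H b) b x w e) : L.lo x ≤ e := by
  rcases hinv.2.2 with ⟨h1, _, h3⟩ | ⟨_, _, _, hdw, he, _⟩
  · rw [h3, h1]
  · have := ed_ge h (x := x) (w := w)
    have := h.ok.isL.dn x w hdw
    omega

/-- the walk finds `u` -/
theorem find [Finite V] (hW1 : W1) (hW3 : W3) (h : NH G rk H q Q L R) (hsp : Sp G rk H q L b)
    {u w0 : V} (hu : u ∈ Ds G rk H b) (hw0 : w0 ∉ Ds G rk H b) (hd : Dn G H q Q L u w0)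
    (hcov : ¬ Cov G rk (Ds G rk H b) L (L.pos u w0)) :
    ∀ n, ∀ x w e, rk x = n → Wk G H q Q L (Ds G rk H b) b x w e → e < L.pos u w0 →
      ∃ w' e', Wk G H q Q L (Ds G rk H b) b u w' e' ∧ e' < L.pos u w0 ∧
        ∀ z ∈ Ds G rk H b, Dn G H q Q L u z → e' < L.pos u z → ¬ L.pos u z < L.pos u w0 := by
  obtain ⟨w31, w32, w33, _⟩ := hW3 V G rk H q Q L R b h hsp
  have hdu := h.ok.isL.dn u w0 hd
  intro n
  induction n using Nat.strong_induction_on with
  | _ n ih =>
    intro x w e hn hwk hlt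
    have hinv := w31 x w e hwk
    have hloe := lo_le h hinv
    by_cases hxq : x = q
    · subst hxq
      have h1 := w33 w e hwk
      by_cases hxu : x = u
      · subst hxu
        exact ⟨w, e, hwk, hlt, fun z hz hdz he => absurd he (h1 z hz hdz)⟩
      · exfalso
        obtain ⟨c, hcD, hdc, hch, _, hc5, hc6, _⟩ :=
          child h (h.ok.isL.root_anc h.ok.parL u hu.1) hxu hu
        exact h1 c hcD hdc (after h hinv hdc hch (by omega)).2
    · obtain ⟨g, hg⟩ := w32 x w e hwk hxq
      have hstep := Wk.step hwk hg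
      rcases hg with ⟨hgD, hdg, heg, hmin⟩ | ⟨hno, _, hgp⟩
      · have harg : Ar G rk g x := hW1 V G rk H q Q L R b h hsp x w e hinv g hgD hdg heg
        have hgch : ¬ Ch H q L x g := fun hc => by
          have := h.ok.parL g hc.1 hc.2.1
          rw [hc.2.2] at this
          have := harg.2
          omega
        have hdnxg := h.ok.isL.dn x g hdg
        have hpne : L.par x ≠ g := fun hh => hdg.2.2.2 hxq hh.symm
        have hposne : L.pos u w0 ≠ L.pos x g := posB h hu hw0 hd hinv.1 hgD hdg hgch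
        rcases lt_or_gt_of_ne hposne with h2 | h2
        · -- p < pos x g: x = u
          have hA := posA h hu hw0 hd hinv.1 (by omega) (by omega)
          by_cases hxu : x = u
          · subst hxu
            refine ⟨w, e, hwk, hlt, fun z hz hdz he hlt' => ?_⟩
            have := hmin z hz hdz he
            omega
          · exfalso
            obtain ⟨c, hcD, hdc, hch, _, hc5, hc6, _⟩ := child h hA hxu hu
            have hac := after h hinv hdc hch (by omega)
            have hm := hmin c hcD hdc hac.2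
            rcases lt_or_eq_of_le hm with h3 | h3
            · have := (h.ok.isL.sep _ _ _ hdg hdc h3).2.1 hch
              omega
            · exact hgch (h.ok.isL.inj _ _ _ hdg hdc h3 ▸ hch)
        · -- pos x g < p
          have hnch : ¬ Ch H q L g x := fun hc => hpne hc.2.2
          have hEd : Ed H q L g x = L.pos g x := by unfold Ed; rw [if_neg hnch]
          have hdgx : Dn G H q Q L g x := by
            refine ⟨hgD.1, harg.1, fun he => h.ok.isL.QH x hinv.1.1 (he ▸ harg.1), fun hne he => ?_⟩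
            have := h.ok.parL g hgD.1 hne
            rw [← he] at this
            have := harg.2
            omega
          have hne2 : L.pos u w0 ≠ L.pos g x := posB h hu hw0 hd hgD hinv.1 hdgx hnch
          have h3 : L.pos g x < L.pos u w0 := by
            by_contra hcon
            exact hcov ⟨g, hgD, x, hinv.1, harg, hpne, h2, by omega⟩
          exact ih (rk g) (by have := harg.2; omega) g x _ rfl hstep (by rw [hEd]; exact h3)
      · by_cases h2 : L.pos u w0 ≤ L.hi x
        · have hA := posA h hu hw0 hd hinv.1 (by omega) h2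
          by_cases hxu : x = u
          · subst hxu
            exact ⟨w, e, hwk, hlt, fun z hz hdz he => absurd he (hno z hz hdz)⟩
          · exfalso
            obtain ⟨c, hcD, hdc, hch, _, hc5, hc6, _⟩ := child h hA hxu hu
            exact hno c hcD hdc (after h hinv hdc hch (by omega)).2
        · have hch : Ch H q L g x := ⟨hinv.1.1, hxq, hgp.symm⟩
          have hEd : Ed H q L g x = L.hi x := by unfold Ed; rw [if_pos hch]
          have hr := h.ok.parL x hinv.1.1 hxq
          rw [← hgp] at hr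
          exact ih (rk g) (by omega) g x _ rfl hstep (by rw [hEd]; omega)

end K2

theorem k2 (hW1 : W1) (hW3 : W3) (hWEQ : WEQ) (hWAN : WAN) (_hWLA : WLA) : K2 := by
  intro V _ G rk H q Q L R b h hsp u hu hub w0 hw0 hadj huQ
  have hL := h.ok.isL
  have hR := h.ok.isR
  have hbH : b ∈ H := hsp.1
  have hlb := hL.lh b hbH
  have hlbR := hR.lh b hbH
  have hd : Dn G H q Q L u w0 :=
    ⟨hu.1, hadj, huQ, fun hne he => hw0 (he ▸ K2.parD h hu hne)⟩
  have hdR : Dn G H q Q R u w0 :=
    ⟨hu.1, hadj, huQ, fun hne he => hw0 (he ▸ K2.parDR h hu hne)⟩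
  have hdu := hL.dn u w0 hd
  obtain ⟨w31, w32, w33, _⟩ := hW3 V G rk H q Q L R b h hsp
  have hweq := hWEQ V G rk H q Q L R b h hsp
  -- common analysis of a state at `u`
  have common : ∀ w e, Wk G H q Q L (Ds G rk H b) b u w e →
      w ∈ Ds G rk H b ∧ Ar G rk u w ∧ Dn G H q Q L u w ∧ Dn G H q Q R u w ∧ e = Ed H q L u w ∧
      L.hi b ≤ e ∧ Anc H q R u b ∧ Ch H q R u w ∧ Anc H q R w b ∧
      (u ≠ q → ∃ g, Nxt G H q Q L (Ds G rk H b) u e g ∧ g = R.par u ∧ Ar G rk g u ∧
        g ∈ Ds G rk H b) := by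
    intro w e hwk
    have hinv := w31 u w e hwk
    rcases hinv.2.2 with ⟨h1, _, _⟩ | ⟨_, hwD, huw, hdw, he, hbe⟩
    · exact absurd h1 hub
    · have h1 := hweq u w e hwk
      have h2 := h1.2 hub
      have hqu := K2.rkq h hu.1
      have hwq : w ≠ q := fun hh => by have := huw.2; rw [hh] at this; omega
      have hchR : Ch H q R u w := ⟨hwD.1, hwq, h2.1⟩
      have hdwR : Dn G H q Q R u w := by
        have := hR.ch_dn h.ok.parR hwD.1 hwq
        rw [h2.1] at this
        exact this
      refine ⟨hwD, huw, hdw, hdwR, he, hbe, h1.1, hchR, h2.2, fun huq => ?_⟩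
      obtain ⟨g, hg⟩ := w32 u w e hwk huq
      have hstep := Wk.step hwk hg
      have hinv' := w31 _ _ _ hstep
      have hgu : Ar G rk g u := by
        rcases hg with ⟨hgD, hdg, heg, _⟩ | ⟨_, _, hgp⟩
        · exact hW1 V G rk H q Q L R b h hsp u w e hinv g hgD hdg heg
        · rw [hgp]
          exact ⟨(hL.par u hu.1 huq).2, h.ok.parL u hu.1 huq⟩
      have hgb : g ≠ b := fun hh => by
        have := hu.2.rank
        have := hgu.2
        rw [hh] at this
        omega
      have h3 := (hweq _ _ _ hstep).2 hgb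
      exact ⟨g, hg, h3.1.symm, hgu, hinv'.1⟩
  -- cyclic comparison
  have hcyc : ∀ w e, Wk G H q Q L (Ds G rk H b) b u w e → u ≠ q → ∀ g,
      Nxt G H q Q L (Ds G rk H b) u e g → g = R.par u → Ar G rk g u → g ∈ Ds G rk H b →
      w ∈ Ds G rk H b → Ar G rk u w →
      (Cyc (L.val u w) (L.val u w0) (L.val u g) ↔ Cyc (R.val u w) (R.val u w0) (R.val u g)) ∧
      L.val u w = L.pos u w ∧ L.val u w0 = L.pos u w0 ∧ R.val u w = R.pos u w ∧
      R.val u w0 = R.pos u w0 ∧ R.val u g = R.hi u := by
    intro w e hwk huq g hg hgp hgu hgD hwD huw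
    have hww0 : w ≠ w0 := fun hh => hw0 (hh ▸ hwD)
    have hgw0 : w0 ≠ g := fun hh => hw0 (hh ▸ hgD)
    have hwg : w ≠ g := fun hh => by
      have h1 := hgu.2
      have h2 := huw.2
      rw [hh] at h2
      omega
    have h1 : w ≠ L.par u := fun hh => by
      have := h.ok.parL u hu.1 huq
      rw [← hh] at this
      have := huw.2
      omega
    have h2 : w ≠ R.par u := fun hh => by
      have := h.ok.parR u hu.1 huq
      rw [← hh] at this
      have := huw.2
      omega
    exact ⟨h.ok.rot u hu.1 huq w w0 g huw.1 hadj hgu.1.symm hww0 hgw0 hwg,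
      Ct.val_ne h1, Ct.val_ne (hd.2.2.2 huq), Ct.val_ne h2, Ct.val_ne (hdR.2.2.2 huq),
      Ct.val_par hgp⟩
  constructor
  · rintro ⟨hbp, hncov⟩
    obtain ⟨w, e, hwk, hlt, hno⟩ := K2.find hW1 hW3 h hsp hu hw0 hd hncov (rk b) b b (L.lo b) rfl
      Wk.base (by omega)
    obtain ⟨hwD, huw, hdw, hdwR, he, hbe, hAu, hchR, hAw, hnx⟩ := common w e hwk
    refine ⟨hAu, ?_⟩
    have hge := K2.ed_ge h (x := u) (w := w)
    have hposL : L.pos u w < L.pos u w0 := by omega
    have hlt2 : R.pos u w < R.pos u w0 := by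
      by_cases huq : u = q
      · have hwQ : w ∈ Q := hL.QH w hwD.1 (huq ▸ huw.1)
        have h1 := (h.ok.rotq w hwQ w0 (huQ huq) (huq ▸ huw.1) (huq ▸ hadj)).1
        subst huq
        exact h1 hposL
      · obtain ⟨g, hg, hgp, hgu, hgD⟩ := hnx huq
        obtain ⟨hc, v1, v2, v3, v4, v5⟩ := hcyc w e hwk huq g hg hgp hgu hgD hwD huw
        have hdn1 := hR.dn u w hdwR
        have hdn2 := hR.dn u w0 hdR
        have hcL : Cyc (L.val u w) (L.val u w0) (L.val u g) := by
          left
          rw [v1, v2]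
          refine ⟨hposL, ?_⟩
          rcases hg with ⟨hgD', hdg, heg, _⟩ | ⟨_, _, hgpL⟩
          · rw [Ct.val_ne (hdg.2.2.2 huq)]
            have h1 := hno g hgD' hdg heg
            have h2 : L.pos u w0 ≠ L.pos u g := fun hh => by
              have := hL.inj _ _ _ hd hdg hh
              exact hw0 (this ▸ hgD)
            omega
          · rw [Ct.val_par hgpL]
            omega
        have hcR := hc.1 hcL
        rw [v3, v4, v5] at hcR
        unfold Cyc at hcR
        omega
    have h1 := (hR.sep u w w0 hdwR hdR hlt2).1 hchR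
    have h2 := hR.anc_le hAw
    omega
  · rintro ⟨hAu, hRb⟩
    obtain ⟨w, e, hwk⟩ := hWAN V G rk H q Q L R b h hsp u hAu
    obtain ⟨hwD, huw, hdw, hdwR, he, hbe, _, hchR, hAw, hnx⟩ := common w e hwk
    have hinv := w31 u w e hwk
    have hww0 : w ≠ w0 := fun hh => hw0 (hh ▸ hwD)
    have hRlt : R.pos u w < R.pos u w0 := by
      have h2 := hR.anc_le hAw
      rcases lt_trichotomy (R.pos u w) (R.pos u w0) with h3 | h3 | h3
      · exact h3
      · exact absurd (hR.inj _ _ _ hdwR hdR h3) hww0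
      · have := (hR.sep _ _ _ hdR hdwR h3).2.1 hchR
        omega
    have hge := K2.ed_ge h (x := u) (w := w)
    -- no D-dart strictly between
    have main : L.pos u w < L.pos u w0 ∧
        ∀ z ∈ Ds G rk H b, Dn G H q Q L u z → e < L.pos u z → L.pos u w0 < L.pos u z := by
      by_cases huq : u = q
      · have hwQ : w ∈ Q := hL.QH w hwD.1 (huq ▸ huw.1)
        have h1 := (h.ok.rotq w hwQ w0 (huQ huq) (huq ▸ huw.1) (huq ▸ hadj)).2
        subst huq
        exact ⟨h1 hRlt, fun z hz hdz hez => absurd hez (w33 w e hwk z hz hdz)⟩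
      · obtain ⟨g, hg, hgp, hgu, hgD⟩ := hnx huq
        obtain ⟨hc, v1, v2, v3, v4, v5⟩ := hcyc w e hwk huq g hg hgp hgu hgD hwD huw
        have hdn2 := hR.dn u w0 hdR
        have hcR : Cyc (R.val u w) (R.val u w0) (R.val u g) := by
          left
          rw [v3, v4, v5]
          exact ⟨hRlt, by omega⟩
        have hcL := hc.2 hcR
        rw [v1, v2] at hcL
        have hdnw := hL.dn u w hdw
        rcases hg with ⟨hgD', hdg, heg, hmin⟩ | ⟨hno, _, hgpL⟩
        · rw [Ct.val_ne (hdg.2.2.2 huq)] at hcL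
          unfold Cyc at hcL
          refine ⟨by omega, fun z hz hdz hez => ?_⟩
          have := hmin z hz hdz hez
          omega
        · rw [Ct.val_par hgpL] at hcL
          unfold Cyc at hcL
          exact ⟨by omega, fun z hz hdz hez => absurd hez (hno z hz hdz)⟩
    obtain ⟨hposL, hno⟩ := main
    have hep : e < L.pos u w0 := by
      rw [he]
      exact K2.ed_lt' h hdw hd hposL
    refine ⟨by omega, ?_⟩
    rintro ⟨x, hx, y, hy, hxy, hp, h1, h2⟩
    have hqx := K2.rkq h hx.1
    have hyq : y ≠ q := fun hh => by have := hxy.2; rw [hh] at this; omega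
    have hdyx : Dn G H q Q L y x :=
      ⟨hy.1, hxy.1.symm, fun hh => absurd hh hyq, fun _ hh => hp hh.symm⟩
    have hnyx : ¬ Ch H q L y x := fun hc => by
      have := h.ok.parL x hx.1 hc.2.1
      rw [hc.2.2] at this
      have := hxy.2
      omega
    have hdny := hL.dn y x hdyx
    have h3 : e < L.pos y x := by
      have h4 : ¬ (L.pos y x < e) := fun h4 =>
        hinv.2.1 ⟨x, hx, y, hy, hxy, hp, h4, by omega⟩
      rcases lt_or_eq_of_le (not_lt.1 h4) with h5 | h5
      · exact h5
      · exfalso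
        rw [he] at h5
        unfold Ed at h5
        split_ifs at h5 with hcw
        · have h6 := hL.lh w hcw.1
          have h7 := hL.dart_block h.ok.parL hdyx hnyx hcw.1 (by omega) (by omega)
          have := hL.anc_le h7
          omega
        · have h6 := hL.pos_inj h.ok.parL hdw hcw hdyx hnyx h5
          have h7 := huw.2
          have h8 := hxy.2
          rw [h6.1, h6.2] at h7
          omega
    have hlou := K2.lo_le h hinv
    have h4 := hL.dart_block h.ok.parL hdyx hnyx hu.1 (by omega) (by omega)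
    by_cases hyu : u = y
    · subst hyu
      have := hno x hx hdyx h3
      omega
    · obtain ⟨c, hcD, hdc, hch, _, hc5, hc6, _⟩ := K2.child h h4 hyu hy
      have hac := K2.after h hinv hdc hch (by omega)
      have h5 := hno c hcD hdc hac.2
      have h6 := (hL.sep _ _ _ hd hdc h5).2.1 hch
      omega

end Pool.BD
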