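import Pool.Agent.H56.BD.StmtsT

/-!
# Module W1: after an uncovered end all darts to `D` are in-darts
-/

set_option autoImplicit false

namespace Pool.BD

open Relation

namespace W1

variable {V : Type} {G : SimpleGraph V} {rk : V → ℕ} {H : Set V} {q : V} {Q : Set V} {L R : Ct V}
  {b : V}

theorem rkq (h : NH G rk H q Q L R) {x : V} (hx : x ∈ H) : rk q ≤ rk x :=
  Anc.rank h.ok.parL (h.ok.isL.root_anc h.ok.parL x hx)

/-- an out-arc is a dart -/
theorem dn_out (h : NH G rk H q Q L R) {u v : V} (hu : u ∈ H) (hq : u ≠ q) (ha : Ar G rk u v) :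
    Dn G H q Q L u v :=
  ⟨hu, ha.1, fun he => absurd he hq, fun _ he => by
    have := h.ok.parL u hu hq
    have := ha.2
    rw [he] at this
    omega⟩

theorem ed_ge (h : NH G rk H q Q L R) {x w : V} : L.pos x w ≤ Ed H q L x w := by
  unfold Ed
  split_ifs with hc
  · have := (h.ok.isL.ch w hc.1 hc.2.1).2.2.1
    rw [hc.2.2] at this
    exact this
  · exact le_rfl

/-- the end `e` of the dart `(x,w)` is left of the block of a child further right -/
theorem ed_lt (h : NH G rk H q Q L R) {x w z : V} (hw : Dn G H q Q L x w)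
    (hz : Dn G H q Q L x z) (hc : Ch H q L x z) (hlt : L.pos x w < L.pos x z) :
    Ed H q L x w < L.lo z := by
  have h1 := h.ok.isL.sep x w z hw hz hlt
  unfold Ed
  split_ifs with hcw
  · exact h1.2.2 hcw hc
  · exact h1.2.1 hc

/-- a dart at the end `e` -/
theorem no_eq (h : NH G rk H q Q L R) {x w u v : V} (hw : Dn G H q Q L x w)
    (hd : Dn G H q Q L u v) (hn : ¬ Ch H q L u v) (hr : rk x < rk u)
    (he : L.pos u v = Ed H q L x w) : False := by
  unfold Ed at he
  split_ifs at he with hcw
  · have h1 := h.ok.isL.dart_block h.ok.parL hd hn hcw.1 (x := w)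
      (by have := h.ok.isL.lh w hcw.1; omega) (by omega)
    have h2 := h.ok.isL.anc_le h1
    have h3 := h.ok.isL.dn u v hd
    omega
  · have h1 := (h.ok.isL.pos_inj h.ok.parL hd hn hw hcw he).1
    rw [h1] at hr
    omega

/-- the block of a vertex of larger rank does not contain the end `e` -/
theorem no_block (h : NH G rk H q Q L R) {x w u : V} (hw : Dn G H q Q L x w)
    (hu : u ∈ H) (hr : rk x < rk u) (h1 : L.lo u ≤ Ed H q L x w) (h2 : Ed H q L x w < L.hi u) :
    False := by
  unfold Ed at h1 h2
  split_ifs at h1 h2 with hcw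
  · have hlw := h.ok.isL.lh w hcw.1
    have hlu := h.ok.isL.lh u hu
    rcases h.ok.isL.tri h.ok.parL w hcw.1 u hu with h3 | h3 | h3 | h3
    · have := h.ok.isL.anc_le h3; omega
    · rcases ReflTransGen.cases_tail h3 with h4 | ⟨y, h4, h5, h6, h7⟩
      · rw [← h4] at h2; omega
      · rw [hcw.2.2] at h7
        have h8 : Anc H q L u y := h4
        rw [← h7] at h8
        have := Anc.rank h.ok.parL h8
        omega
    · omega
    · omega
  · have h3 := h.ok.isL.dart_block h.ok.parL hw hcw hu h1 h2.le
    have := Anc.rank h.ok.parL h3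
    omega

theorem path (h : NH G rk H q Q L R) (hb : b ∈ H) {x w : V} (hx : x ∈ H) (hw : Dn G H q Q L x w)
    (hbe : L.hi b ≤ Ed H q L x w) (hcov : ¬ Cov G rk (Ds G rk H b) L (Ed H q L x w)) {u : V}
    (hu : Re G rk u b) : u ∈ H → rk x < rk u → Ed H q L x w < L.lo u → False := by
  have hqx := rkq h hx
  induction hu using ReflTransGen.head_induction_on with
  | refl =>
    intro _ _ h1
    have := h.ok.isL.lh b hb
    omega
  | @head u u2 h1 h2 ih =>
    intro hu hr hlt
    have huq : u ≠ q := fun he => by rw [he] at hr; omega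
    have hu2 : u2 ∈ H := h.up u hu huq u2 h1
    have hr2 : rk x < rk u2 := lt_trans hr h1.2
    have hu2q : u2 ≠ q := fun he => by rw [he] at hr2; omega
    by_cases h3 : Ed H q L x w < L.lo u2
    · exact ih hu2 hr2 h3
    · by_cases h4 : L.par u2 = u
      · have := (h.ok.isL.ch u2 hu2 hu2q).1
        rw [h4] at this
        omega
      · have h5 := h.ok.left u hu u2 hu2 h1 h4
        have h6 := dn_out h hu huq h1
        have h7 := h.ok.isL.dn u u2 h6
        have h8 : Dn G H q Q L u2 u :=
          ⟨hu2, h1.1.symm, fun he => absurd he hu2q, fun _ he => h4 he.symm⟩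
        have h9 : ¬ Ch H q L u2 u := fun hc => by
          have := h.ok.parL u hu huq
          rw [hc.2.2] at this
          have := h1.2
          omega
        have h10 := h.ok.isL.dn u2 u h8
        rcases lt_trichotomy (L.pos u2 u) (Ed H q L x w) with h11 | h11 | h11
        · exact hcov ⟨u, ⟨hu, ReflTransGen.head h1 h2⟩, u2, ⟨hu2, h2⟩, h1, h4, h11, by omega⟩
        · exact no_eq h hw h8 h9 hr2 h11
        · exact no_block h hw hu2 hr2 (by omega) (by omega)

end W1

theorem w1 : W1 := by
  intro V G rk H q Q L R b h hsp x w e hinv z hz hdz hez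
  obtain ⟨hxD, hcov, hcase⟩ := hinv
  have hxz : G.Adj x z := hdz.2.1
  have hne : x ≠ z := hxz.ne
  have hrk : rk x ≠ rk z := fun he => hne (h.inj he)
  rcases lt_or_gt_of_ne hrk with hlt | hlt
  swap
  · exact ⟨hxz.symm, hlt⟩
  exfalso
  have hzb := hz.2.rank
  rcases hcase with ⟨h1, h2, h3⟩ | ⟨hxb, hwD, hxw, hdw, he, hbe⟩
  · rw [h1] at hlt; omega
  · subst he
    have hxH : x ∈ H := hxD.1
    have hqx := W1.rkq h hxH
    have hbH : b ∈ H := hsp.1
    have hge := W1.ed_ge h (x := x) (w := w)
    have hdnw := h.ok.isL.dn x w hdw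
    -- case of a child
    have key : ∀ c, c ∈ Ds G rk H b → Dn G H q Q L x c → Ch H q L x c → rk x < rk c →
        Ed H q L x w < L.pos x c → False := by
      intro c hc hdc hch hrc hlt1
      have h1 : Ed H q L x w < L.lo c := W1.ed_lt h hdw hdc hch (by omega)
      exact W1.path h hbH hxH hdw hbe hcov hc.2 hc.1 hrc h1
    by_cases hch : Ch H q L x z
    · exact key z hz hdz hch hlt hez
    · have hzq : z ≠ q := fun hh => by rw [hh] at hlt; omega
      have hpar : L.par z ≠ x := fun hh => hch ⟨hz.1, hzq, hh⟩
      have hxz' : Ar G rk x z := ⟨hxz, hlt⟩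
      have h1 := h.ok.left x hxH z hz.1 hxz' hpar
      have h2 : Dn G H q Q L z x :=
        ⟨hz.1, hxz.symm, fun hh => absurd hh hzq, fun _ hh => hpar hh.symm⟩
      have h3 : ¬ Ch H q L z x := fun hc => by
        have := h.ok.parL x hxH hc.2.1
        rw [hc.2.2] at this
        omega
      have h4 := h.ok.isL.dn z x h2
      have h5 := h.ok.isL.dn x z hdz
      rcases lt_trichotomy (L.pos z x) (Ed H q L x w) with h6 | h6 | h6
      · exact hcov ⟨x, hxD, z, hz, hxz', hpar, h6, hez⟩
      · exact W1.no_eq h hdw h2 h3 hlt h6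
      · rcases h.ok.isL.tri h.ok.parL x hxH z hz.1 with h7 | h7 | h7 | h7
        · obtain ⟨c, hc1, hc2, hc3, hc4⟩ := h7.head hne
          have hdc := h.ok.isL.ch_dn h.ok.parL hc1 hc2
          rw [hc3] at hdc
          have hblk := h.ok.isL.anc_le hc4
          have hcD : c ∈ Ds G rk H b :=
            ⟨hc1, (Anc.reach h.ok.isL h.ok.parL hc4).trans hz.2⟩
          have hrc : rk x < rk c := by
            have := h.ok.parL c hc1 hc2
            rw [hc3] at this
            exact this
          have hchc : Ch H q L x c := ⟨hc1, hc2, hc3⟩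
          refine key c hcD hdc hchc hrc ?_
          by_contra hcon
          have hcon' : L.pos x c ≤ Ed H q L x w := not_lt.1 hcon
          rcases lt_trichotomy (L.pos x w) (L.pos x c) with h8 | h8 | h8
          · have := W1.ed_lt h hdw hdc hchc h8
            have h9 := (h.ok.isL.ch c hc1 hc2).2.1
            rw [hc3] at h9
            omega
          · have h9 := h.ok.isL.inj x w c hdw hdc h8
            subst h9
            have : Ed H q L x w = L.hi w := by unfold Ed; rw [if_pos hchc]
            omega
          · have := (h.ok.isL.sep x c w hdc hdw h8).1 hchc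
            omega
        · have := Anc.rank h.ok.parL h7
          omega
        · omega
        · omega

end Pool.BD
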